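import Pool.Agent.Helper82.TP.HC
import Pool.Agent.Helper50.CV.Power
import Pool.Agent.Helper80.MX.Span

/-! A label known to the point and to the line has no information on the point of the Heisenberg group. -/

set_option autoImplicit false

namespace Pool.Agent.Helper25.NSB

open Finset Filter Topology Pool.Agent.Helper69.RK Pool.Agent.Helper31.EC Pool.Agent.Helper82.TP

noncomputable section

open Sp QS

theorem sup_fin_le {L : Type*} [SemilatticeSup L] [OrderBot L] {n : ℕ} (f : Fin n → L) (A : L) :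
    Finset.univ.sup f ≤ A ↔ ∀ i, f i ≤ A := by
  rw [Finset.sup_le_iff]
  simp

/-- functions known to `A` form a ring -/
abbrev Kk {S : Sp} (A : S.L) : Subring (QS S) := Kn S 1 le_rfl A

theorem inv_le {S : Sp} {a a' : QS S} (h : a' * a = 1) : dg a' 1 ≤ dg a 1 := by
  have h0 : IsUnit a := IsUnit.of_mul_eq_one a' (by rw [mul_comm]; exact h)
  obtain ⟨a0, rfl⟩ := mk_surj a
  obtain ⟨g', e2, e3⟩ := Nd.inv (isUnit_mk.mp h0)
  have e4 : a' = g' := by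
    calc a' = a' * (g' * QS.mk a0) := by rw [e2, mul_one]
      _ = g' * (a' * QS.mk a0) := by ring
      _ = g' := by rw [h, mul_one]
  rw [e4]
  exact e3 1 le_rfl

theorem eq_of_Id_one {D : Sp} {f g : QS D} (h : f - g ∈ Id D 1) : f = g := sub_eq_zero.mp (mem_Id_one.mp h)

/-- a value of a quadratic polynomial with known coefficients and unit leading coefficient at a real argument is real -/
theorem real_quad {D : Sp} {ι : Type} [Fintype ι] (g : ι → QS D)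
    (u a b c : QS D) (ha : IsUnit a) (h1 : dg a 1 ≤ vd g 1) (h2 : dg b 1 ≤ vd g 1)
    (h3 : dg c 1 ≤ vd g 1) (hu : h (dg u 1) (vd g 1) = 1) :
    h (dg (a * u ^ 2 + b * u + c) 1) (vd g 1) = 1 := by
  classical
  obtain ⟨A, hA⟩ : ∃ A, A = vd g 1 := ⟨_, rfl⟩
  rw [← hA] at h1 h2 h3 hu ⊢
  obtain ⟨f, hf⟩ : ∃ f, f = a * u ^ 2 + b * u + c := ⟨_, rfl⟩
  rw [← hf]
  obtain ⟨a', ha'⟩ := ha.exists_left_inv
  have ha1 : dg a' 1 ≤ dg a 1 := inv_le ha'
  -- the copy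
  obtain ⟨T, p1, p2, k2, k4, -⟩ := Helper38.NS.exists_copyS (Sum.elim g ![f, a, b, c])
  have kg : ∀ i, p1.qs (g i) = p2.qs (g i) := fun i => k2 (Sum.inl i)
  have kf0 : p1.qs f = p2.qs f := k2 (Sum.inr 0)
  have ka : p1.qs a = p2.qs a := k2 (Sum.inr 1)
  have kb : p1.qs b = p2.qs b := k2 (Sum.inr 2)
  have kc : p1.qs c = p2.qs c := k2 (Sum.inr 3)
  have hX : vd (Sum.elim g ![f, a, b, c]) 1 = A ⊔ dg f 1 := by
    apply le_antisymm
    · rw [vd_le]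
      rintro (i | i)
      · rw [hA]
        exact (dg_le_vd g 1 i).trans le_sup_left
      · fin_cases i
        · exact le_sup_right
        · exact h1.trans le_sup_left
        · exact h2.trans le_sup_left
        · exact h3.trans le_sup_left
    · apply sup_le
      · rw [hA, vd_le]
        exact fun i => dg_le_vd (Sum.elim g ![f, a, b, c]) 1 (Sum.inl i)
      · exact dg_le_vd (Sum.elim g ![f, a, b, c]) 1 (Sum.inr 0)
  have hA1 : p1.map A = p2.map A := by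
    rw [hA, ← p1.qs_vd, ← p2.qs_vd]
    congr 1
    funext i
    exact kg i
  have hff : p1.map (dg f 1) = p2.map (dg f 1) := by rw [← p1.qs_dg, ← p2.qs_dg, kf0]
  have k4' : ∀ x y, I (p1.map x) (p2.map y) (p1.map (A ⊔ dg f 1)) = 0 := by
    intro x y
    have e := k4 x y
    rw [hX] at e
    exact e
  -- the roots
  obtain ⟨i2, hi2⟩ := (Helper50.CV.isUnit_nat (S := D) 2 two_pos).exists_left_inv
  have h2A : ∀ B : D.L, dg ((2 : ℕ) : QS D) 1 ≤ B := fun B => mem_Kn.mp (natCast_mem (Kk B) 2)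
  have hw : IsUnit (((2 : ℕ) : QS D) * u - -(a' * b)) := by
    apply isUnit_sub
    apply le_antisymm (h_dg_le_one _ _)
    have e1 : dg (-(a' * b)) 1 ≤ A :=
      mem_Kn.mp ((Kk A).neg_mem ((Kk A).mul_mem (mem_Kn.mpr (ha1.trans h1)) (mem_Kn.mpr h2)))
    have e2 : dg u 1 ≤ dg (((2 : ℕ) : QS D) * u) 1 := by
      have e3 : u = i2 * (((2 : ℕ) : QS D) * u) := by rw [← mul_assoc, hi2, one_mul]
      have e4 : dg (i2 * (((2 : ℕ) : QS D) * u)) 1 ≤ dg (((2 : ℕ) : QS D) * u) 1 :=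
        mem_Kn.mp ((Kk _).mul_mem (mem_Kn.mpr ((inv_le hi2).trans (h2A _))) (mem_Kn.mpr le_rfl))
      rwa [← e3] at e4
    calc (1 : ℝ) = h (dg u 1) A := hu.symm
      _ ≤ h (dg (((2 : ℕ) : QS D) * u) 1) A := h_mono e2
      _ ≤ _ := h_anti e1
  have hunit : IsUnit (p1.qs u - (-(p1.qs (a' * b)) - p1.qs u)) := by
    have e1 : p1.qs u - (-(p1.qs (a' * b)) - p1.qs u) = p1.qs (((2 : ℕ) : QS D) * u - -(a' * b)) := by
      rw [map_sub, map_neg, map_mul p1.qs ((2 : ℕ) : QS D) u, map_natCast]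
      push_cast
      ring
    rw [e1]
    exact hw.map p1.qs
  have hp : (p2.qs u - p1.qs u) * (p2.qs u - (-(p1.qs (a' * b)) - p1.qs u)) = 0 := by
    have e1 := kf0
    rw [hf] at e1
    simp only [map_add, map_mul, map_pow] at e1
    rw [← ka, ← kb, ← kc] at e1
    have e2 : p1.qs a' * p1.qs a = 1 := by rw [← map_mul, ha', map_one]
    rw [map_mul]
    have e3 : (p2.qs u - p1.qs u) * (p2.qs u - (-(p1.qs a' * p1.qs b) - p1.qs u)) =
        p1.qs a' * (p1.qs a * p2.qs u ^ 2 + p1.qs b * p2.qs u + p1.qs c) -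
        p1.qs a' * (p1.qs a * p1.qs u ^ 2 + p1.qs b * p1.qs u + p1.qs c) -
        (p1.qs a' * p1.qs a - 1) * (p2.qs u ^ 2 - p1.qs u ^ 2) := by ring
    rw [e3, ← e1, e2]
    ring
  have hroot : dg (p2.qs u) 1 ≤ vd (![p1.qs u, -(p1.qs (a' * b)) - p1.qs u] : Fin 2 → QS T) 1 := by
    apply Helper50.CV.root_known two_pos
    · intro i j hij
      fin_cases i <;> fin_cases j
      · exact absurd rfl hij
      · exact hunit
      · have e1 := hunit.neg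
        rw [neg_sub] at e1
        exact e1
      · exact absurd rfl hij
    · rw [Fin.prod_univ_two]
      exact hp
  have hroot2 : p2.map (dg u 1) ≤ p1.map (dg u 1 ⊔ A) := by
    rw [← p2.qs_dg]
    refine hroot.trans ?_
    rw [vd_le]
    intro i
    have e0 : ∀ q : QS D, dg q 1 ≤ dg u 1 ⊔ A → dg (p1.qs q) 1 ≤ p1.map (dg u 1 ⊔ A) := by
      intro q hq
      rw [p1.qs_dg]
      exact p1.map_mono hq
    fin_cases i
    · exact e0 u le_sup_left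
    · have e1 : -(p1.qs (a' * b)) - p1.qs u = p1.qs (-(a' * b) - u) := by rw [map_sub, map_neg]
      show dg (-(p1.qs (a' * b)) - p1.qs u) 1 ≤ _
      rw [e1]
      apply e0
      exact mem_Kn.mp ((Kk _).sub_mem ((Kk _).neg_mem ((Kk _).mul_mem
        (mem_Kn.mpr ((ha1.trans h1).trans le_sup_right)) (mem_Kn.mpr (h2.trans le_sup_right)))) (mem_Kn.mpr le_sup_left))
  have hz : h (dg u 1) (A ⊔ dg f 1) = 0 := by
    have e1 := k4' (dg u 1) (dg u 1)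
    rw [I_zero_iff_h'] at e1
    rw [← p2.h_map, p2.map_sup, ← hA1, ← hff, ← p1.map_sup, ← e1]
    apply h_zero
    rw [← p1.map_sup]
    exact hroot2.trans (p1.map_mono (sup_le_sup_left le_sup_left _))
  apply le_antisymm (h_dg_le_one _ _)
  have e1 := h_chain (dg u 1) (dg f 1) A
  have e2 := h_chain (dg f 1) (dg u 1) A
  rw [sup_comm (dg f 1) (dg u 1)] at e2
  have e3 : h (dg u 1) (dg f 1 ⊔ A) = 0 := by rw [sup_comm]; exact hz
  have e4 := h_nonneg (dg f 1) (dg u 1 ⊔ A)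
  linarith

section walk

variable {S : Sp} {H : HD S} {β : ℕ → Type} {V : ∀ k, (S.F k).Ω → β k}

theorem real_of_copy {W D : Sp} {p1 : Pj D W} {p2 : Pj D S} {U : D.L} {A t : S.L}
    (hA : U = p2.map A) (hI : ∀ x : W.L, I (p1.map x) (p2.map t) U = 0)
    (X : W.L) : h (p2.map t) (p1.map X ⊔ U) = h t A := by
  have e1 := hI X
  rw [I_zero_iff_h'] at e1
  rw [e1, hA, p2.h_map]

/-- a copy over the line and the label -/
theorem line_step (hV : Bdd V) (hL : io V ≤ H.L) (time : h (dg H.t 1) H.L = 1) {W : Sp} (p : Pj W S) :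
    ∃ (D : Sp) (p1 : Pj D W) (p2 : Pj D S), p1.qs (p.qs H.x) = p2.qs H.x ∧ p1.qs (p.qs H.a) = p2.qs H.a ∧
      p1.qs (p.qs H.aR) = p2.qs H.aR ∧ p1.map (p.map (io V)) = p2.map (io V) ∧
      ∀ X : W.L, h (dg (p2.qs H.t) 1) (p1.map X) = 1 := by
  obtain ⟨D, p1, p2, -, h2, -, h4, h5, h6⟩ := exists_lab p V hV
    ![H.x, H.a, H.aR, H.v, H.az] (fun _ => 1) (fun _ => le_rfl)
  have hX : (Finset.univ.sup fun i => dg ((![H.x, H.a, H.aR, H.v, H.az] : Fin 5 → QS S) i) 1) = H.L := by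
    apply le_antisymm
    · rw [sup_fin_le]
      intro i
      fin_cases i
      · exact le_sup_left.trans (le_sup_left.trans le_sup_left)
      · exact le_sup_right.trans (le_sup_left.trans le_sup_left)
      · exact le_sup_right.trans le_sup_left
      · exact le_sup_left.trans le_sup_right
      · exact le_sup_right.trans le_sup_right
    · have g := (sup_fin_le (fun i => dg ((![H.x, H.a, H.aR, H.v, H.az] : Fin 5 → QS S) i) 1) _).mp le_rfl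
      exact sup_le (sup_le (sup_le (g 0) (g 1)) (g 2)) (sup_le (g 3) (g 4))
  have hcom : p1.map (p.map (io V ⊔ H.L)) = p2.map (io V ⊔ H.L) := by
    rw [← hX, p.map_sup, p1.map_sup, p2.map_sup, h5]
    congr 1
    rw [p.map_finsup, p1.map_finsup, p2.map_finsup]
    congr 1
    funext i
    exact h6 i
  refine ⟨D, p1, p2, eq_of_Id_one (h2 0), eq_of_Id_one (h2 1), eq_of_Id_one (h2 2), h5, fun X => ?_⟩
  apply le_antisymm (h_dg_le_one _ _)
  rw [hX] at h4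
  have e1 := real_of_copy (t := dg H.t 1) hcom (fun x => h4 x (dg H.t 1)) X
  rw [p2.qs_dg]
  have e2 : h (dg H.t 1) (io V ⊔ H.L) = 1 := by rw [sup_eq_right.mpr hL]; exact time
  exact (e1.trans e2).symm.le.trans (h_anti (le_sup_left : p1.map X ≤ p1.map X ⊔ p1.map (p.map (io V ⊔ H.L))))

/-- a copy over the point and the label -/
theorem point_step (hV : Bdd V) (hB : io V ≤ H.B) (T1 : I (dg H.x 1) H.B ⊥ = 0)
    (rich : ∀ (T : Sp) (p : Pj T S) (E : ∀ k, (T.F k).Ω → Prop) (hE : 0 < ul (T.pr E)) (r : ℝ), 0 < r → r ≤ 1 →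
      0 < h (restL E hE (p.map (dg H.x r))) (restL E hE (p.map H.B))) {W : Sp} (p : Pj W S) :
    ∃ (D : Sp) (p1 : Pj D W) (p2 : Pj D S), p1.qs (p.qs H.t) = p2.qs H.t ∧ p1.qs (p.qs H.y) = p2.qs H.y ∧
      p1.qs (p.qs H.R) = p2.qs H.R ∧ p1.map (p.map (io V)) = p2.map (io V) ∧
      (∀ X : W.L, I (dg (p2.qs H.x) 1) (p1.map X) ⊥ = 0) ∧ ∀ f : QS W, IsUnit (p1.qs f - p2.qs H.x) := by
  obtain ⟨D, p1, p2, -, h2, -, h4, h5, h6⟩ := exists_lab p V hV
    ![H.t, H.y, H.R, H.z] (fun _ => 1) (fun _ => le_rfl)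
  have hX : (Finset.univ.sup fun i => dg ((![H.t, H.y, H.R, H.z] : Fin 4 → QS S) i) 1) = H.B := by
    apply le_antisymm
    · rw [sup_fin_le]
      intro i
      fin_cases i
      · exact le_sup_left.trans (le_sup_left.trans le_sup_left)
      · exact le_sup_right.trans (le_sup_left.trans le_sup_left)
      · exact le_sup_right.trans le_sup_left
      · exact le_sup_right
    · have g := (sup_fin_le (fun i => dg ((![H.t, H.y, H.R, H.z] : Fin 4 → QS S) i) 1) _).mp le_rfl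
      exact sup_le (sup_le (sup_le (g 0) (g 1)) (g 2)) (g 3)
  have hcom : p1.map (p.map (io V ⊔ H.B)) = p2.map (io V ⊔ H.B) := by
    rw [← hX, p.map_sup, p1.map_sup, p2.map_sup, h5]
    congr 1
    rw [p.map_finsup, p1.map_finsup, p2.map_finsup]
    congr 1
    funext i
    exact h6 i
  rw [hX] at h4
  have hVB : io V ⊔ H.B = H.B := sup_eq_right.mpr hB
  rw [hVB] at hcom h4
  refine ⟨D, p1, p2, eq_of_Id_one (h2 0), eq_of_Id_one (h2 1), eq_of_Id_one (h2 2), h5, fun X => ?_, fun f => ?_⟩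
  · have e1 := real_of_copy (t := dg H.x 1) hcom (fun x => h4 x (dg H.x 1)) X
    rw [I_zero_iff_h, sup_bot_eq, p2.qs_dg]
    apply le_antisymm (h_anti bot_le)
    rw [I_zero_iff_h, sup_bot_eq] at T1
    rw [h_bot, p2.H_map, ← h_bot, ← T1, ← e1]
    exact h_anti (le_sup_left : p1.map X ≤ p1.map X ⊔ p1.map (p.map H.B))
  · by_contra hc
    obtain ⟨d, hd, E, hE, h7⟩ := Helper80.MX.exists_small hc
    have hd1 : min d 1 ≤ 1 := min_le_right _ _
    have h8 := Id_anti (min_le_left d 1) h7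
    rw [map_sub] at h8
    have h9 := dg_eq_of_sub_mem h8 le_rfl hd1
    have e1 := I_rest_zero E hE (h4 (dg f 1) (dg H.x (min d 1)))
    rw [hcom] at e1
    have e2 := rich D p2 E hE (min d 1) (lt_min hd one_pos) hd1
    have e3 : restL E hE (p2.map (dg H.x (min d 1))) ≤ restL E hE (p1.map (dg f 1)) := by
      rw [← p2.qs_dg, ← p1.qs_dg, ← QS.rest_dg, ← QS.rest_dg, ← h9]
      exact dg_mono _ hd1
    rw [I_zero_iff_h'] at e1
    rw [← e1] at e2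
    have e4 : h (restL E hE (p2.map (dg H.x (min d 1))))
        (restL E hE (p1.map (dg f 1)) ⊔ restL E hE (p2.map H.B)) = 0 := h_zero (e3.trans le_sup_left)
    linarith

theorem h_indep {L : Type*} [PM L] {x t U : L} (h0 : I x (U ⊔ t) ⊥ = 0) : h t (U ⊔ x) = h t U := by
  have h1 := (I_decomp h0).2
  rw [sup_bot_eq, I_zero_iff_h'] at h1
  rw [sup_comm U x]
  exact h1

/-- a label known to the point and to the line is independent of the point of the Heisenberg group -/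
theorem blind (hV : Bdd V) (hB : io V ≤ H.B) (hL : io V ≤ H.L) (time : h (dg H.t 1) H.L = 1)
    (T1 : I (dg H.x 1) H.B ⊥ = 0)
    (rich : ∀ (T : Sp) (p : Pj T S) (E : ∀ k, (T.F k).Ω → Prop) (hE : 0 < ul (T.pr E)) (r : ℝ), 0 < r → r ≤ 1 →
      0 < h (restL E hE (p.map (dg H.x r))) (restL E hE (p.map H.B))) : h H.M (io V) = 3 := by
  obtain ⟨D1, p1, q1, c1t, c1y, c1R, c1V, c1I, c1u⟩ := point_step hV hB T1 rich (Pj.id S)
  rw [Pj.id_qs] at c1t c1y c1R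
  rw [Pj.id_map] at c1V
  obtain ⟨D2, p2, q2, c2x, c2a, c2R, c2V, c2I⟩ := line_step hV hL time q1
  obtain ⟨D3, p3, q3, c3t, c3y, c3R, c3V, c3I, c3u⟩ := point_step hV hB T1 rich q2
  obtain ⟨D4, p4, q4, c4x, c4a, c4R, c4V, c4I⟩ := line_step hV hL time q3
  have hy : ∀ {T : Sp} (q : Pj T S), q.qs H.y = q.qs H.a + q.qs H.t * q.qs H.x := by
    intro T q
    unfold HD.a
    rw [map_sub, map_mul]; ring
  have hR : ∀ {T : Sp} (q : Pj T S), q.qs H.R = q.qs H.aR + q.qs H.t * q.qs H.a := by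
    intro T q
    unfold HD.aR
    rw [map_sub, map_mul]; ring
  have e_a1 : q1.qs H.a = p1.qs H.a + p1.qs H.t * (p1.qs H.x - q1.qs H.x) := by
    have e1 := hy q1
    have e2 := hy p1
    rw [c1y, e1, ← c1t] at e2
    linear_combination e2
  have e_r1 : q1.qs H.aR = p1.qs H.aR - (p1.qs H.x - q1.qs H.x) * p1.qs H.t ^ 2 := by
    have e1 := hR q1
    have e2 := hR p1
    rw [c1R, e1, ← c1t, e_a1] at e2
    linear_combination e2
  have e_a3 : q3.qs H.a = p3.qs (q2.qs H.a) + p3.qs (q2.qs H.t) * (p3.qs (q2.qs H.x) - q3.qs H.x) := by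
    have e1 := hy q3
    have e2 := congrArg p3.qs (hy q2)
    rw [c3y, e1, map_add, map_mul, ← c3t] at e2
    linear_combination e2
  have e_r3 : q3.qs H.aR = p3.qs (q2.qs H.aR) - (p3.qs (q2.qs H.x) - q3.qs H.x) * p3.qs (q2.qs H.t) ^ 2 := by
    have e1 := hR q3
    have e2 := congrArg p3.qs (hR q2)
    rw [c3R, e1, map_add, map_mul, ← c3t, e_a3] at e2
    linear_combination e2
  -- the variables of the walk
  obtain ⟨x0, hx0⟩ : ∃ f, f = p4.qs (p3.qs (p2.qs (p1.qs H.x))) := ⟨_, rfl⟩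
  obtain ⟨a0, ha0⟩ : ∃ f, f = p4.qs (p3.qs (p2.qs (p1.qs H.a))) := ⟨_, rfl⟩
  obtain ⟨r0, hr0⟩ : ∃ f, f = p4.qs (p3.qs (p2.qs (p1.qs H.aR))) := ⟨_, rfl⟩
  obtain ⟨v0, hv0⟩ : ∃ f, f = p4.qs (p3.qs (p2.qs (p1.qs H.v))) := ⟨_, rfl⟩
  obtain ⟨z0, hz0⟩ : ∃ f, f = p4.qs (p3.qs (p2.qs (p1.qs H.az))) := ⟨_, rfl⟩
  obtain ⟨t1, ht1⟩ : ∃ f, f = p4.qs (p3.qs (p2.qs (p1.qs H.t))) := ⟨_, rfl⟩
  obtain ⟨x1, hx1⟩ : ∃ f, f = p4.qs (p3.qs (p2.qs (q1.qs H.x))) := ⟨_, rfl⟩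
  obtain ⟨t2, ht2⟩ : ∃ f, f = p4.qs (p3.qs (q2.qs H.t)) := ⟨_, rfl⟩
  obtain ⟨x2, hx2⟩ : ∃ f, f = p4.qs (q3.qs H.x) := ⟨_, rfl⟩
  obtain ⟨t3, ht3⟩ : ∃ f, f = q4.qs H.t := ⟨_, rfl⟩
  obtain ⟨g, hg⟩ : ∃ g, g = (![x0, a0, r0, v0, z0, x1, x2] : Fin 7 → QS D4) := ⟨_, rfl⟩
  obtain ⟨A, hA⟩ : ∃ A, A = vd g 1 := ⟨_, rfl⟩
  have u1 : IsUnit (x0 - x1) := by
    rw [hx0, hx1, ← map_sub, ← map_sub, ← map_sub]
    exact (((c1u H.x).map p2.qs).map p3.qs).map p4.qs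
  have u2 : IsUnit (x1 - x2) := by
    rw [hx1, hx2, ← map_sub]
    exact (c3u (p2.qs (q1.qs H.x))).map p4.qs
  have u3 : IsUnit (x0 - x2) := by
    rw [hx0, hx2, ← map_sub]
    exact (c3u (p2.qs (p1.qs H.x))).map p4.qs
  have s1 : q4.qs H.y = a0 + ((x0 - x1) * t1 + (x1 - x2) * t2) + t3 * x2 := by
    rw [hy q4, ← c4a, ← c4x, e_a3, ← c2a, ← c2x, e_a1]
    simp only [map_add, map_sub, map_mul]
    rw [← hx0, ← ha0, ← ht1, ← hx1, ← ht2, ← hx2, ← ht3]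
    ring
  have s2 : q4.qs H.R = r0 - (x0 - x1) * t1 ^ 2 - (x1 - x2) * t2 ^ 2 +
      t3 * (a0 + ((x0 - x1) * t1 + (x1 - x2) * t2)) := by
    rw [hR q4, ← c4R, ← c4a, e_r3, e_a3, ← c2R, ← c2a, ← c2x, e_a1, e_r1]
    simp only [map_add, map_sub, map_mul, map_pow]
    rw [← hx0, ← ha0, ← hr0, ← ht1, ← hx1, ← ht2, ← hx2, ← ht3]
    ring
  -- the information of the beginning
  have hL4 : p4.map (p3.map (p2.map (p1.map H.L))) ≤ A := by
    unfold HD.L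
    simp only [Pj.map_sup, ← Pj.qs_dg]
    rw [← hx0, ← ha0, ← hr0, ← hv0, ← hz0, hA]
    have e := dg_le_vd g 1
    rw [hg] at e ⊢
    exact sup_le (sup_le (sup_le (e 0) (e 1)) (e 2)) (sup_le (e 3) (e 4))
  have hA' : A ≤ p4.map (p3.map (p2.map (p1.map H.L))) ⊔ dg x1 1 ⊔ dg x2 1 := by
    rw [hA, hg, vd_le]
    have e0 : p4.map (p3.map (p2.map (p1.map H.L))) = dg x0 1 ⊔ dg a0 1 ⊔ dg r0 1 ⊔ (dg v0 1 ⊔ dg z0 1) := by
      unfold HD.L
      simp only [Pj.map_sup, ← Pj.qs_dg]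
      rw [← hx0, ← ha0, ← hr0, ← hv0, ← hz0]
    rw [e0]
    intro i
    fin_cases i
    · exact (le_sup_left.trans (le_sup_left.trans le_sup_left)).trans (le_sup_left.trans le_sup_left)
    · exact (le_sup_right.trans (le_sup_left.trans le_sup_left)).trans (le_sup_left.trans le_sup_left)
    · exact (le_sup_right.trans le_sup_left).trans (le_sup_left.trans le_sup_left)
    · exact (le_sup_left.trans le_sup_right).trans (le_sup_left.trans le_sup_left)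
    · exact (le_sup_right.trans le_sup_right).trans (le_sup_left.trans le_sup_left)
    · exact le_sup_right.trans le_sup_left
    · exact le_sup_right
  -- the times are real
  have k1 : h (dg (p1.qs H.t) 1) (p1.map H.L ⊔ dg (q1.qs H.x) 1) = 1 := by
    have e1 := c1I (H.L ⊔ dg H.t 1)
    rw [p1.map_sup] at e1
    have e2 := h_indep e1
    rw [p1.qs_dg, e2, p1.h_map]
    exact time
  have k2 : h (dg (q2.qs H.t) 1) (p2.map (p1.map H.L ⊔ dg (q1.qs H.x) 1 ⊔ dg (p1.qs H.t) 1)) = 1 := c2I _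
  have r1 : h (dg t1 1) A = 1 := by
    apply le_antisymm (h_dg_le_one _ _)
    have e1 := c3I (p2.map (p1.map H.L ⊔ dg (q1.qs H.x) 1) ⊔ dg (p2.qs (p1.qs H.t)) 1)
    rw [p3.map_sup] at e1
    have e2 := h_indep e1
    rw [p3.h_map, p2.qs_dg (p1.qs H.t), p2.h_map, k1] at e2
    rw [ht1, p4.qs_dg, p3.qs_dg, p2.qs_dg]
    have e3 : A ≤ p4.map (p3.map (p2.map (p1.map H.L ⊔ dg (q1.qs H.x) 1)) ⊔ dg (q3.qs H.x) 1) := by
      refine hA'.trans (le_of_eq ?_)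
      rw [hx1, hx2]
      simp only [Pj.map_sup, Pj.qs_dg]
    refine le_trans ?_ (h_anti e3)
    rw [p4.h_map]
    exact e2.symm.le
  have r2 : h (dg t2 1) (A ⊔ dg t1 1) = 1 := by
    apply le_antisymm (h_dg_le_one _ _)
    have e1 := c3I (p2.map (p1.map H.L ⊔ dg (q1.qs H.x) 1 ⊔ dg (p1.qs H.t) 1) ⊔ dg (q2.qs H.t) 1)
    rw [p3.map_sup] at e1
    have e2 := h_indep e1
    rw [p3.h_map, k2] at e2
    rw [ht2, p4.qs_dg, p3.qs_dg]
    have e3 : A ⊔ dg t1 1 ≤ p4.map (p3.map (p2.map (p1.map H.L ⊔ dg (q1.qs H.x) 1 ⊔ dg (p1.qs H.t) 1)) ⊔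
        dg (q3.qs H.x) 1) := by
      refine (sup_le_sup_right hA' _).trans (le_of_eq ?_)
      rw [hx1, hx2, ht1]
      simp only [Pj.map_sup, Pj.qs_dg]
      exact sup_right_comm _ _ _
    refine le_trans ?_ (h_anti e3)
    rw [p4.h_map]
    exact e2.symm.le
  have r3 : h (dg t3 1) (A ⊔ dg t1 1 ⊔ dg t2 1) = 1 := by
    apply le_antisymm (h_dg_le_one _ _)
    have e1 := c4I (p3.map (p2.map (p1.map H.L)) ⊔ dg (p3.qs (p2.qs (q1.qs H.x))) 1 ⊔ dg (q3.qs H.x) 1 ⊔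
      dg (p3.qs (p2.qs (p1.qs H.t))) 1 ⊔ dg (p3.qs (q2.qs H.t)) 1)
    rw [ht3]
    refine e1.symm.le.trans (h_anti ?_)
    refine (sup_le_sup_right (sup_le_sup_right hA' _) _).trans (le_of_eq ?_)
    rw [hx1, hx2, ht1, ht2]
    simp only [Pj.map_sup, Pj.qs_dg]
  obtain ⟨s, hs⟩ : ∃ s, s = (x0 - x1) * t1 + (x1 - x2) * t2 := ⟨_, rfl⟩
  rw [← hs] at s1 s2
  have m0 : dg x0 1 ≤ A := by rw [hA, hg]; exact dg_le_vd (![x0, a0, r0, v0, z0, x1, x2] : Fin 7 → QS D4) 1 0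
  have m1 : dg a0 1 ≤ A := by rw [hA, hg]; exact dg_le_vd (![x0, a0, r0, v0, z0, x1, x2] : Fin 7 → QS D4) 1 1
  have m2 : dg r0 1 ≤ A := by rw [hA, hg]; exact dg_le_vd (![x0, a0, r0, v0, z0, x1, x2] : Fin 7 → QS D4) 1 2
  have m5 : dg x1 1 ≤ A := by rw [hA, hg]; exact dg_le_vd (![x0, a0, r0, v0, z0, x1, x2] : Fin 7 → QS D4) 1 5
  have m6 : dg x2 1 ≤ A := by rw [hA, hg]; exact dg_le_vd (![x0, a0, r0, v0, z0, x1, x2] : Fin 7 → QS D4) 1 6
  obtain ⟨i2, hi2⟩ := u2.exists_left_inv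
  have m7 : dg i2 1 ≤ A := (inv_le hi2).trans (mem_Kn.mp ((Kk A).sub_mem (mem_Kn.mpr m5) (mem_Kn.mpr m6)))
  -- `t2` from `s` and `t1`
  have n1 : dg t2 1 ≤ A ⊔ dg t1 1 ⊔ dg s 1 := by
    have e1 : t2 = i2 * (s - (x0 - x1) * t1) := by
      rw [hs]
      linear_combination (-t2) * hi2
    rw [e1]
    have e2 : A ≤ A ⊔ dg t1 1 ⊔ dg s 1 := le_sup_left.trans le_sup_left
    exact mem_Kn.mp ((Kk _).mul_mem (mem_Kn.mpr (m7.trans e2)) ((Kk _).sub_mem (mem_Kn.mpr le_sup_right)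
      ((Kk _).mul_mem ((Kk _).sub_mem (mem_Kn.mpr (m0.trans e2)) (mem_Kn.mpr (m5.trans e2)))
        (mem_Kn.mpr (le_sup_right.trans le_sup_left)))))
  have c1 : h (dg t1 1 ⊔ dg t2 1 ⊔ dg t3 1) A = 3 := by
    rw [h_chain, h_chain, r1]
    have e1 : dg t1 1 ⊔ A = A ⊔ dg t1 1 := sup_comm _ _
    have e2 : dg t1 1 ⊔ dg t2 1 ⊔ A = A ⊔ dg t1 1 ⊔ dg t2 1 := by rw [sup_comm, sup_assoc]
    rw [e1, e2, r2, r3]
    norm_num
  have c2 : h (dg t3 1) A + h (dg t1 1 ⊔ dg t2 1) (dg t3 1 ⊔ A) = 3 := by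
    rw [← h_chain, sup_comm, c1]
  have c3 : h (dg t1 1 ⊔ dg t2 1) (dg t3 1 ⊔ A) ≤ h (dg t1 1 ⊔ dg s 1) (dg t3 1 ⊔ A) := by
    have e1 : dg t1 1 ⊔ dg t2 1 ≤ (dg t1 1 ⊔ dg s 1) ⊔ (dg t3 1 ⊔ A) := by
      apply sup_le (le_sup_left.trans le_sup_left)
      refine n1.trans (sup_le (sup_le (le_sup_right.trans le_sup_right) (le_sup_left.trans le_sup_left))
        (le_sup_right.trans le_sup_left))
    have e2 := h_mono (B := dg t3 1 ⊔ A) e1
    rwa [h_sup_right_of_le le_rfl] at e2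
  have c4 : h (dg s 1 ⊔ dg t1 1) (dg t3 1 ⊔ A) = h (dg s 1) (dg t3 1 ⊔ A) + h (dg t1 1) (dg s 1 ⊔ (dg t3 1 ⊔ A)) :=
    h_chain _ _ _
  rw [sup_comm (dg s 1) (dg t1 1)] at c4
  have c5 := h_dg_le_one s (dg t3 1 ⊔ A)
  have c6 := h_dg_le_one t1 (dg s 1 ⊔ (dg t3 1 ⊔ A))
  have c7 := h_dg_le_one t3 A
  have c8 : h (dg t3 1) A = 1 := by linarith
  have c9 : h (dg s 1) (dg t3 1 ⊔ A) = 1 := by linarith
  have c10 : h (dg t1 1) (dg s 1 ⊔ (dg t3 1 ⊔ A)) = 1 := by linarith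
  -- `y`
  have y1 : 1 ≤ h (dg (q4.qs H.y) 1) (dg t3 1 ⊔ A) := by
    have e1 : dg s 1 ≤ dg (q4.qs H.y) 1 ⊔ (dg t3 1 ⊔ A) := by
      have e2 : s = q4.qs H.y - a0 - t3 * x2 := by rw [s1]; ring
      rw [e2]
      exact mem_Kn.mp ((Kk _).sub_mem ((Kk _).sub_mem (mem_Kn.mpr le_sup_left)
        (mem_Kn.mpr (m1.trans (le_sup_right.trans le_sup_right)))) ((Kk _).mul_mem
        (mem_Kn.mpr (le_sup_left.trans le_sup_right)) (mem_Kn.mpr (m6.trans (le_sup_right.trans le_sup_right)))))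
    have e2 := h_mono (B := dg t3 1 ⊔ A) e1
    rw [h_sup_right_of_le le_rfl, c9] at e2
    exact e2
  have y2 : dg (q4.qs H.y) 1 ≤ dg s 1 ⊔ (dg t3 1 ⊔ A) := by
    rw [s1]
    exact mem_Kn.mp ((Kk _).add_mem ((Kk _).add_mem (mem_Kn.mpr (m1.trans (le_sup_right.trans le_sup_right)))
      (mem_Kn.mpr le_sup_left)) ((Kk _).mul_mem
        (mem_Kn.mpr (le_sup_left.trans le_sup_right)) (mem_Kn.mpr (m6.trans (le_sup_right.trans le_sup_right)))))
  -- `R`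
  have z1 : h (dg (q4.qs H.R) 1) (dg s 1 ⊔ (dg t3 1 ⊔ A)) = 1 := by
    have e0 : vd (Sum.elim g ![s, t3]) 1 = dg s 1 ⊔ (dg t3 1 ⊔ A) := by
      apply le_antisymm
      · rw [vd_le]
        rintro (i | i)
        · rw [hA]
          exact (dg_le_vd g 1 i).trans (le_sup_right.trans le_sup_right)
        · fin_cases i
          · exact le_sup_left
          · exact le_sup_left.trans le_sup_right
      · apply sup_le (dg_le_vd (Sum.elim g ![s, t3]) 1 (Sum.inr 0))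
        apply sup_le (dg_le_vd (Sum.elim g ![s, t3]) 1 (Sum.inr 1))
        rw [hA, vd_le]
        exact fun i => dg_le_vd (Sum.elim g ![s, t3]) 1 (Sum.inl i)
    have e1 : q4.qs H.R = (-((x0 - x1) * (x0 - x2) * i2)) * t1 ^ 2 + (2 * s * (x0 - x1) * i2) * t1 +
        (r0 - s ^ 2 * i2 + t3 * (a0 + s)) := by
      rw [s2]
      have e2 : i2 * (x1 - x2) = 1 := hi2
      have e3 : (x1 - x2) * t2 = s - (x0 - x1) * t1 := by rw [hs]; ring
      have e4 : (x1 - x2) * t2 ^ 2 = i2 * (s - (x0 - x1) * t1) ^ 2 := by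
        rw [← e3]
        linear_combination (-((x1 - x2) * t2 ^ 2)) * e2
      have e5 : (x0 - x1) * t1 ^ 2 = i2 * (x1 - x2) * (x0 - x1) * t1 ^ 2 := by rw [e2, one_mul]
      rw [e4, e5]
      ring
    have hmem : ∀ q, dg q 1 ≤ A → dg q 1 ≤ dg s 1 ⊔ (dg t3 1 ⊔ A) := fun q hq =>
      hq.trans (le_sup_right.trans le_sup_right)
    have hi2' : IsUnit i2 := IsUnit.of_mul_eq_one (x1 - x2) hi2
    rw [e1, ← e0]
    apply real_quad
    · exact ((u1.mul u3).mul hi2').neg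
    · rw [e0]
      exact mem_Kn.mp ((Kk _).neg_mem ((Kk _).mul_mem ((Kk _).mul_mem
        ((Kk _).sub_mem (mem_Kn.mpr (hmem _ m0)) (mem_Kn.mpr (hmem _ m5)))
        ((Kk _).sub_mem (mem_Kn.mpr (hmem _ m0)) (mem_Kn.mpr (hmem _ m6)))) (mem_Kn.mpr (hmem _ m7))))
    · rw [e0]
      exact mem_Kn.mp ((Kk _).mul_mem ((Kk _).mul_mem ((Kk _).mul_mem (ofNat_mem (Kk _) 2) (mem_Kn.mpr le_sup_left))
        ((Kk _).sub_mem (mem_Kn.mpr (hmem _ m0)) (mem_Kn.mpr (hmem _ m5)))) (mem_Kn.mpr (hmem _ m7)))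
    · rw [e0]
      exact mem_Kn.mp ((Kk _).add_mem ((Kk _).sub_mem (mem_Kn.mpr (hmem _ m2)) ((Kk _).mul_mem
        ((Kk _).pow_mem (mem_Kn.mpr le_sup_left) 2) (mem_Kn.mpr (hmem _ m7)))) ((Kk _).mul_mem
        (mem_Kn.mpr (le_sup_left.trans le_sup_right)) ((Kk _).add_mem (mem_Kn.mpr (hmem _ m1))
        (mem_Kn.mpr le_sup_left))))
    · rw [e0]
      exact c10
  -- conclusion
  have w1 : h (dg (q4.qs H.R) 1) (dg s 1 ⊔ (dg t3 1 ⊔ A)) ≤
      h (dg (q4.qs H.R) 1) (dg (q4.qs H.y) 1 ⊔ (dg t3 1 ⊔ A)) :=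
    h_anti (sup_le y2 le_sup_right)
  have w2 : h (dg t3 1 ⊔ dg (q4.qs H.y) 1 ⊔ dg (q4.qs H.R) 1) A =
      h (dg t3 1) A + h (dg (q4.qs H.y) 1) (dg t3 1 ⊔ A) + h (dg (q4.qs H.R) 1) (dg t3 1 ⊔ dg (q4.qs H.y) 1 ⊔ A) := by
    rw [h_chain, h_chain]
  have w3 : dg t3 1 ⊔ dg (q4.qs H.y) 1 ⊔ A = dg (q4.qs H.y) 1 ⊔ (dg t3 1 ⊔ A) := by
    rw [sup_comm (dg t3 1) (dg (q4.qs H.y) 1), sup_assoc]
  rw [w3] at w2
  have w4 : q4.map (io V) ≤ A := by
    rw [← c4V, ← c3V, ← c2V, ← c1V]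
    refine le_trans ?_ hL4
    exact p4.map_mono (p3.map_mono (p2.map_mono (p1.map_mono hL)))
  have w5 : h H.M (io V) = h (dg t3 1 ⊔ dg (q4.qs H.y) 1 ⊔ dg (q4.qs H.R) 1) (q4.map (io V)) := by
    rw [← q4.h_map]
    unfold HD.M
    rw [q4.map_sup, q4.map_sup, ← q4.qs_dg, ← q4.qs_dg, ← q4.qs_dg, ht3]
  rw [w5]
  apply le_antisymm
  · rw [h_chain, h_chain]
    have e1 := h_dg_le_one t3 (q4.map (io V))
    have e2 := h_dg_le_one (q4.qs H.y) (dg t3 1 ⊔ q4.map (io V))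
    have e3 := h_dg_le_one (q4.qs H.R) (dg t3 1 ⊔ dg (q4.qs H.y) 1 ⊔ q4.map (io V))
    linarith
  · have e1 := h_anti (A := dg t3 1 ⊔ dg (q4.qs H.y) 1 ⊔ dg (q4.qs H.R) 1) w4
    linarith

end walk

end

end Pool.Agent.Helper25.NSB
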